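import Pool.Agent.N520.AN.Stm2

/-!
# Project AN2, part THREE: the maps which fix three plates are bounded (helper933 for helper520)
-/

set_option autoImplicit false

open Set Filter Topology

namespace Pool.Agent.N933.AN2

open Pool.Agent.N520.AN

theorem t_three (_h1 : Pool.Agent.N520.AN.S2_SUB) (h2 : Pool.Agent.N520.AN.S2_TWO)
    (h3 : Pool.Agent.N520.AN.S2_BEL) : Pool.Agent.N520.AN.S2_THREE := by
  intro E _ _ _ q Λ hA k1 hk1 k2 hk2 k3 hk3 h12 h23 h13
  by_contra hcon
  push Not at hcon
  choose g hg f1 f2 f3 v hv using fun m : ℕ => hcon (m : ℝ)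
  have hv0 : ∀ m, 0 < ‖v m‖ := by
    intro m
    rw [norm_pos_iff]
    intro h0
    have := hv m
    rw [h0, map_zero, norm_zero, mul_zero] at this
    exact lt_irrefl _ this
  have hDiv : Div g := by
    refine ⟨fun m => ‖v m‖⁻¹ • v m, fun m => ?_, ?_⟩
    · rw [norm_smul, norm_inv, norm_norm, inv_mul_cancel₀ (hv0 m).ne']
    · refine tendsto_atTop_mono (fun m => ?_) tendsto_natCast_atTop_atTop
      rw [map_smul, norm_smul, norm_inv, norm_norm, inv_mul_eq_div, le_div_iff₀ (hv0 m)]
      exact (hv m).le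
  obtain ⟨φ, _, hF1, hF2⟩ := h2 E q Λ hA g hg hDiv
  have claim : ∀ k ∈ Plt q Λ, (∀ j, ∀ u, u ∈ range k ↔ (g (φ j)).symm u ∈ range k) →
      range k ≠ (big (inv g ∘ φ) : Set E) → range k = (big (g ∘ φ) : Set E) := by
    rintro k ⟨_, h, hh, hFh, hr⟩ hfix hne
    have hrk : range k = (big h : Set E) := Set.ext hr
    have hne' : big h ≠ big (inv (g ∘ φ)) := by
      intro he
      apply hne
      rw [hrk, he]
      rfl
    obtain ⟨δ, hδ, hev⟩ := h3 E q Λ hA (g ∘ φ) h (fun j => hg (φ j)) hh hF2 hFh hne'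
    obtain ⟨J, hJ⟩ := eventually_atTop.1 hev
    have hle : big h ≤ big (g ∘ φ) := by
      intro y hy
      refine ⟨fun j => if J ≤ j then (g (φ j)).symm y else 0, ‖y‖ / δ, fun j => ?_, ?_⟩
      · by_cases hj : J ≤ j
        · simp only [if_pos hj]
          have hy2 : (g (φ j)).symm y ∈ big h := (hr _).1 ((hfix j y).1 ((hr y).2 hy))
          have h4 := hJ j hj _ hy2
          simp only [Function.comp_apply, LinearEquiv.apply_symm_apply] at h4
          rw [le_div_iff₀ hδ]
          linarith
        · simp only [if_neg hj, norm_zero]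
          positivity
      · refine tendsto_const_nhds.congr' ?_
        filter_upwards [eventually_ge_atTop J] with j hj
        simp only [if_pos hj, Function.comp_apply, LinearEquiv.apply_symm_apply]
    have hfr : Module.finrank ℝ (big h) = Module.finrank ℝ (big (g ∘ φ)) := by
      have a1 := hFh.2
      have a2 := hF1.2
      omega
    rw [hrk, Submodule.eq_of_le_of_finrank_eq hle hfr]
  by_cases a1 : range k1 = (big (inv g ∘ φ) : Set E)
  · have b2 := claim k2 hk2 (fun j => f2 (φ j)) (fun h => h12 (a1.trans h.symm))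
    have b3 := claim k3 hk3 (fun j => f3 (φ j)) (fun h => h13 (a1.trans h.symm))
    exact h23 (b2.trans b3.symm)
  · have b1 := claim k1 hk1 (fun j => f1 (φ j)) a1
    by_cases a2 : range k2 = (big (inv g ∘ φ) : Set E)
    · have b3 := claim k3 hk3 (fun j => f3 (φ j)) (fun h => h23 (a2.trans h.symm))
      exact h13 (b1.trans b3.symm)
    · have b2 := claim k2 hk2 (fun j => f2 (φ j)) a2
      exact h12 (b1.trans b2.symm)

end Pool.Agent.N933.AN2
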